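import Pool.Agent.KS6_41.TD.BowGraph

/-!
# MP_fe499a_co: two cycles with one common vertex, both lengths divisible by six

`bow m n` is the graph consisting of a cycle of length `m` and a cycle of length `n` with exactly
one common vertex. `Bounded F`: the graphs of diameter at most three without a subgraph isomorphic
to `F` have bounded treedepth. For all multiples `m, n ≥ 12` of `6` we determine when this holds.
-/

set_option autoImplicit false

namespace Pool.Agent.Results.MP_fe499a_co.TwoCyclesCriterion

open Pool.Agent.KS41TD

theorem exists_pow (D : ℕ) (hD : D ≠ 0) : ∃ r, r % 2 = 1 ∧ D = 2 ^ padicValNat 2 D * r := by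
  obtain ⟨k, r, hr, h⟩ := Nat.exists_eq_two_pow_mul_odd hD
  have hr0 : r ≠ 0 := by
    rintro rfl
    simp at hr
  have hk : padicValNat 2 D = k := by
    rw [h, padicValNat.mul (by positivity) hr0, padicValNat.prime_pow,
      padicValNat.eq_zero_of_not_dvd (by rw [Nat.odd_iff] at hr; omega), add_zero]
  exact ⟨r, Nat.odd_iff.1 hr, by rw [hk]; exact h⟩

/-- Let `m, n ≥ 12` be multiples of `6` and let `F` be the graph consisting of a cycle of length `m`
and a cycle of length `n` with exactly one common vertex. Then `F` has two cycles, and the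
`F`-subgraph-free graphs of diameter at most `3` have bounded treedepth if and only if `m - 2` and
`n - 2` are divisible by different powers of `2`. -/
theorem result (m n : ℕ) (h6m : 6 ∣ m) (h6n : 6 ∣ n) (hm : 12 ≤ m) (hn : 12 ≤ n) :
    HasTwoCycles (bow m n) ∧
      (Bounded (bow m n) ↔ padicValNat 2 (m - 2) ≠ padicValNat 2 (n - 2)) := by
  refine ⟨bow_hasTwoCycles (by omega) (by omega), ?_⟩
  obtain ⟨r, hr, hr'⟩ := exists_pow (m - 2) (by omega)
  obtain ⟨s, hs, hs'⟩ := exists_pow (n - 2) (by omega)
  constructor
  · intro hb he
    rw [← he] at hs'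
    refine unbounded_bow (p := padicValNat 2 (m - 2)) (r := r) (s := s) ?_ (by omega) (by omega)
      hr hs hb
    have hdvd : 2 ∣ m - 2 := by omega
    exact one_le_padicValNat_of_dvd (by omega) hdvd
  · intro hne
    exact bounded_bow h6m h6n hm hn (by omega) (by omega) hr hs hne

end Pool.Agent.Results.MP_fe499a_co.TwoCyclesCriterion
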